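import Pool.Agent.helper73.AD.GW1

/-!
Module WA1: the unit vectors of leaves and seams of an admissible representation.
-/

open scoped MatrixGroups LinearAlgebra.Projectivization BigOperators
open Matrix UpperHalfPlane

namespace AdSBend

noncomputable section

open LeafSystem

/-! ### matrices -/

theorem WA1_Dm (t : ℝ) : (Dm t).1 = Real.cosh (t / 2) • (1 : M2) + Real.sinh (t / 2) • hM := by
  ext i j
  fin_cases i <;> fin_cases j <;> simp [Dm, hM, Real.cosh_add_sinh]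
  rw [← sub_eq_add_neg, Real.cosh_sub_sinh]

theorem WA1_Emhex (d : ℝ) : (Em d).1 * hM * (Em (-d)).1 =
    Real.cosh d • hM - Real.sinh d • (hM * eM) := by
  have h1 : Real.cosh d = Real.cosh (d / 2) ^ 2 + Real.sinh (d / 2) ^ 2 := by
    have := Real.cosh_two_mul (d / 2)
    rwa [mul_div_cancel₀ d (two_ne_zero)] at this
  have h2 : Real.sinh d = 2 * Real.sinh (d / 2) * Real.cosh (d / 2) := by
    have := Real.sinh_two_mul (d / 2)
    rwa [mul_div_cancel₀ d (two_ne_zero)] at this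
  rw [h1, h2]
  have e1 : -d / 2 = -(d / 2) := by ring
  ext i j
  fin_cases i <;> fin_cases j <;>
    simp [Em, hM, eM, Matrix.mul_apply, Fin.sum_univ_two, e1] <;> ring

theorem WA1_Dmeh (t : ℝ) : (Dm t).1 * eM * (Dm (-t)).1 =
    Real.cosh t • eM + Real.sinh t • (hM * eM) := by
  have e1 : -(-t / 2) = t / 2 := by ring
  have e2 : -(t / 2) = -t / 2 := by ring
  have h1 : Real.exp (t / 2) * Real.exp (t / 2) = Real.cosh t + Real.sinh t := by
    rw [← Real.exp_add, Real.cosh_add_sinh]; ring_nf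
  have h2 : Real.exp (-t / 2) * Real.exp (-t / 2) = Real.cosh t - Real.sinh t := by
    rw [← Real.exp_add, Real.cosh_sub_sinh]; ring_nf
  ext i j
  fin_cases i <;> fin_cases j <;>
    simp [Dm, hM, eM, Matrix.mul_apply, Fin.sum_univ_two, e1, e2, h1, h2]
  ring_nf
  exact (Real.cosh_sub_sinh t).symm

theorem WA1_Em_inv (d : ℝ) : (Em d)⁻¹ = Em (-d) := by
  apply Subtype.ext
  rw [Matrix.SpecialLinearGroup.coe_inv, Matrix.adjugate_fin_two]
  have e1 : -d / 2 = -(d / 2) := by ring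
  ext i j
  fin_cases i <;> fin_cases j <;> simp [Em, e1]

theorem WA1_Dm_inv (d : ℝ) : (Dm d)⁻¹ = Dm (-d) := by
  apply Subtype.ext
  rw [Matrix.SpecialLinearGroup.coe_inv, Matrix.adjugate_fin_two]
  have e1 : -(-d / 2) = d / 2 := by ring
  have e2 : -(d / 2) = -d / 2 := by ring
  ext i j
  fin_cases i <;> fin_cases j <;> simp [Dm, e1, e2]

theorem WA1_cj_one (g : SL(2, ℝ)) : cj g 1 = 1 := by
  unfold cj
  rw [mul_one, ← Matrix.SpecialLinearGroup.coe_mul, mul_inv_cancel]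
  rfl

theorem WA1_cj_mul (g : SL(2, ℝ)) (X Y : M2) : cj g (X * Y) = cj g X * cj g Y := by
  have h : (g⁻¹).1 * g.1 = 1 := by
    rw [← Matrix.SpecialLinearGroup.coe_mul, inv_mul_cancel]
    rfl
  unfold cj
  calc g.1 * (X * Y) * (g⁻¹).1 = g.1 * X * 1 * Y * (g⁻¹).1 := by
        simp only [mul_one, mul_assoc]
    _ = g.1 * X * ((g⁻¹).1 * g.1) * Y * (g⁻¹).1 := by rw [h]
    _ = _ := by simp only [mul_assoc]

theorem WA1_cj_smul (g : SL(2, ℝ)) (t : ℝ) (X : M2) : cj g (t • X) = t • cj g X := by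
  unfold cj
  simp

theorem WA1_cj_add (g : SL(2, ℝ)) (X Y : M2) : cj g (X + Y) = cj g X + cj g Y := by
  unfold cj
  simp [mul_add, add_mul]

theorem WA1_cj_sub (g : SL(2, ℝ)) (X Y : M2) : cj g (X - Y) = cj g X - cj g Y := by
  unfold cj
  simp [mul_sub, sub_mul]

theorem WA1_cj_cj (g h : SL(2, ℝ)) (X : M2) : cj (g * h) X = cj g (cj h X) := by
  unfold cj
  rw [_root_.mul_inv_rev]
  simp only [Matrix.SpecialLinearGroup.coe_mul, mul_assoc]

theorem WA1_cj_trace (g : SL(2, ℝ)) (X : M2) : (cj g X).trace = X.trace := by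
  have h : (g⁻¹).1 * g.1 = 1 := by
    rw [← Matrix.SpecialLinearGroup.coe_mul, inv_mul_cancel]
    rfl
  unfold cj
  rw [Matrix.trace_mul_comm, ← mul_assoc, h, one_mul]

theorem WA1_hh : hM * hM = (1 : M2) := by
  ext i j; fin_cases i <;> fin_cases j <;> simp [hM, Matrix.mul_apply, Fin.sum_univ_two]

theorem WA1_ee : eM * eM = (1 : M2) := by
  ext i j; fin_cases i <;> fin_cases j <;> simp [eM, Matrix.mul_apply, Fin.sum_univ_two]

theorem WA1_he : hM * eM = -(eM * hM) := by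
  ext i j; fin_cases i <;> fin_cases j <;> simp [hM, eM, Matrix.mul_apply, Fin.sum_univ_two]

theorem WA1_tr_h : hM.trace = 0 := by simp [hM, Matrix.trace_fin_two]

theorem WA1_tr_e : eM.trace = 0 := by simp [eM, Matrix.trace_fin_two]

/-- a traceless matrix of determinant `-1` is an involution -/
theorem WA1_sq (X : M2) (h1 : X.trace = 0) (h2 : X.det = -1) : X * X = 1 := by
  rw [Matrix.trace_fin_two] at h1
  rw [Matrix.det_fin_two] at h2
  have h3 : X 1 1 = -X 0 0 := by linarith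
  ext i j
  fin_cases i <;> fin_cases j <;> simp [Matrix.mul_apply, Fin.sum_univ_two, h3]
  · rw [h3] at h2; linarith
  · ring
  · ring
  · rw [h3] at h2; linarith

theorem WA1_cj_Dm (F : SL(2, ℝ)) (t : ℝ) : (F * Dm t * F⁻¹).1 =
    Real.cosh (t / 2) • (1 : M2) + Real.sinh (t / 2) • cj F hM := by
  have : (F * Dm t * F⁻¹).1 = cj F (Dm t).1 := by
    unfold cj
    simp only [Matrix.SpecialLinearGroup.coe_mul]
  rw [this, WA1_Dm, WA1_cj_add, WA1_cj_smul, WA1_cj_smul, WA1_cj_one]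

theorem WA1_axis (tw1 : TW1_stmt) (g F : SL(2, ℝ)) (h : 2 < |trc g|)
    (hF : pos g = F * Dm (len g) * F⁻¹) : axis g = cj F hM := by
  obtain ⟨h1, _, _, h2, _⟩ := tw1.2.2.2 g h
  rw [hF, WA1_cj_Dm] at h1
  have h3 : Real.sinh (len g / 2) • cj F hM = Real.sinh (len g / 2) • axis g := by
    exact add_left_cancel h1
  have h4 : Real.sinh (len g / 2) ≠ 0 := ne_of_gt (Real.sinh_pos_iff.mpr (by linarith))
  exact (smul_right_injective _ h4 h3).symm

/-- algebra of two anticommuting involutions -/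
theorem WA1_alg (a s : M2) (ha : a * a = 1) (hs : s * s = 1) (has : a * s = -(s * a)) :
    a * (a * s) = s ∧ (a * s) * a = -s ∧ (a * s) * s = a ∧ s * (a * s) = -a ∧
    s * a = -(a * s) := by
  have h0 : s * a = -(a * s) := by rw [has, neg_neg]
  refine ⟨?_, ?_, ?_, ?_, h0⟩
  · rw [← mul_assoc, ha, one_mul]
  · rw [mul_assoc, h0, mul_neg, ← mul_assoc, ha, one_mul]
  · rw [mul_assoc, hs, mul_one]
  · rw [← mul_assoc, h0, neg_mul, mul_assoc, hs, mul_one]

theorem WA1_trace_as (a s : M2) (has : a * s = -(s * a)) : (a * s).trace = 0 := by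
  have h1 : (a * s).trace = -(a * s).trace := by
    conv_lhs => rw [has, Matrix.trace_neg, Matrix.trace_mul_comm]
  linarith

/-- the vectors of a seam frame -/
theorem WA1_core (tw1 : TW1_stmt) (a x F : SL(2, ℝ)) (d : ℝ) (ha : 2 < |trc a|)
    (hx : 2 < |trc x|) (h : SeamD a x F d) :
    axis a = cj F hM ∧
    axis x = -(Real.cosh d • cj F hM) + Real.sinh d • (cj F hM * cj F eM) ∧
    ip (axis a) (axis x) = -Real.cosh d ∧ ip (axis x) (axis a) = -Real.cosh d ∧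
    smV (axis a) (axis x) = cj F eM ∧ smV (axis x) (axis a) = -cj F eM := by
  obtain ⟨hd, h1, h2⟩ := h
  have e1 : axis a = cj F hM := WA1_axis tw1 a F ha h1
  have e2 : axis x = -(Real.cosh d • cj F hM) + Real.sinh d • (cj F hM * cj F eM) := by
    have e3 : pos x = (F * Em d) * Dm (-len x) * (F * Em d)⁻¹ := by
      rw [h2, _root_.mul_inv_rev, WA1_Em_inv]
      simp only [mul_assoc]
    obtain ⟨h3, _, _, h4, _⟩ := tw1.2.2.2 x hx
    rw [e3, WA1_cj_Dm] at h3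
    have e4 : -len x / 2 = -(len x / 2) := by ring
    rw [e4, Real.cosh_neg, Real.sinh_neg] at h3
    have h5 := add_left_cancel h3
    have h6 : Real.sinh (len x / 2) ≠ 0 := ne_of_gt (Real.sinh_pos_iff.mpr (by linarith))
    have h7 : Real.sinh (len x / 2) • (-cj (F * Em d) hM) = Real.sinh (len x / 2) • axis x := by
      rw [← h5, smul_neg, _root_.neg_smul]
    have h8 := smul_right_injective _ h6 h7
    rw [← h8, WA1_cj_cj]
    have h9 : cj (Em d) hM = Real.cosh d • hM - Real.sinh d • (hM * eM) := by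
      rw [← WA1_Emhex]
      unfold cj
      rw [WA1_Em_inv]
    rw [h9, WA1_cj_sub, WA1_cj_smul, WA1_cj_smul, WA1_cj_mul]
    abel
  set A := cj F hM with hA
  set s := cj F eM with hs
  have hAA : A * A = 1 := by rw [hA, ← WA1_cj_mul, WA1_hh, WA1_cj_one]
  have hss : s * s = 1 := by rw [hs, ← WA1_cj_mul, WA1_ee, WA1_cj_one]
  have has : A * s = -(s * A) := by
    rw [hA, hs, ← WA1_cj_mul, ← WA1_cj_mul, WA1_he]
    have : cj F (-(eM * hM)) = -cj F (eM * hM) := by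
      have := WA1_cj_smul F (-1) (eM * hM)
      simpa using this
    rw [this]
  obtain ⟨r1, r2, r3, r4, r5⟩ := WA1_alg A s hAA hss has
  have trs : s.trace = 0 := by rw [hs, WA1_cj_trace, WA1_tr_e]
  have m1 : A * axis x = -Real.cosh d • (1 : M2) + Real.sinh d • s := by
    rw [e2, mul_add, mul_neg, mul_smul_comm, mul_smul_comm, hAA, r1, _root_.neg_smul]
  have m2 : axis x * A = -Real.cosh d • (1 : M2) - Real.sinh d • s := by
    rw [e2, add_mul, neg_mul, smul_mul_assoc, smul_mul_assoc, hAA, r2, _root_.neg_smul, smul_neg]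
    abel
  have i1 : ip (axis a) (axis x) = -Real.cosh d := by
    unfold ip
    rw [e1, m1, Matrix.trace_add, Matrix.trace_smul, Matrix.trace_smul, trs]
    simp [Matrix.trace_one]
    ring
  have i2 : ip (axis x) (axis a) = -Real.cosh d := by
    unfold ip
    rw [e1, m2, Matrix.trace_sub, Matrix.trace_smul, Matrix.trace_smul, trs]
    simp [Matrix.trace_one]
    ring
  have hsq : Real.sqrt ((-Real.cosh d) ^ 2 - 1) = Real.sinh d := by
    have : (-Real.cosh d) ^ 2 - 1 = Real.sinh d ^ 2 := by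
      rw [neg_sq, Real.cosh_sq]; ring
    rw [this]
    exact Real.sqrt_sq (Real.sinh_nonneg_iff.mpr hd.le)
  have hne : Real.sinh d ≠ 0 := ne_of_gt (Real.sinh_pos_iff.mpr hd)
  refine ⟨e1, e2, i1, i2, ?_, ?_⟩
  · unfold smV
    rw [i1, hsq, e1, m1]
    have : -Real.cosh d • (1 : M2) + Real.sinh d • s - -Real.cosh d • (1 : M2) =
        Real.sinh d • s := by abel
    rw [this, smul_smul, inv_mul_cancel₀ hne, one_smul]
  · unfold smV
    rw [i2, hsq, e1, m2]
    have : -Real.cosh d • (1 : M2) - Real.sinh d • s - -Real.cosh d • (1 : M2) =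
        Real.sinh d • (-s) := by rw [smul_neg]; abel
    rw [this, smul_smul, inv_mul_cancel₀ hne, one_smul]

/-! ### representations -/

theorem WA1_PEq_refl (g : SL(2, ℝ)) : PEq g g := Or.inl rfl

theorem WA1_PEq_symm {g h : SL(2, ℝ)} (H : PEq g h) : PEq h g := by
  rcases H with H | H
  · exact Or.inl H.symm
  · exact Or.inr (by rw [H, neg_neg])

theorem WA1_PEq_trans {g h k : SL(2, ℝ)} (H : PEq g h) (H' : PEq h k) : PEq g k := by
  rcases H with H | H <;> rcases H' with H' | H'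
  · exact Or.inl (H.trans H')
  · exact Or.inr (H.trans H')
  · exact Or.inr (by rw [H, H'])
  · exact Or.inl (by rw [H, H', neg_neg])

theorem WA1_PEq_mul {g h k l : SL(2, ℝ)} (H : PEq g h) (H' : PEq k l) : PEq (g * k) (h * l) := by
  rcases H with H | H <;> rcases H' with H' | H'
  · exact Or.inl (by rw [H, H'])
  · exact Or.inr (by rw [H, H', mul_neg])
  · exact Or.inr (by rw [H, H', neg_mul])
  · exact Or.inl (by rw [H, H', neg_mul_neg])

theorem WA1_PEq_inv {g h : SL(2, ℝ)} (H : PEq g h) : PEq g⁻¹ h⁻¹ := by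
  rcases H with H | H
  · exact Or.inl (by rw [H])
  · refine Or.inr ?_
    rw [H]
    rw [inv_eq_iff_mul_eq_one]
    rw [neg_mul_neg, mul_inv_cancel]

theorem WA1_rep_one {Γ : Subgroup SL(2, ℝ)} {r : SL(2, ℝ) → SL(2, ℝ)} (hr : IsPRep Γ r) :
    PEq (r 1) 1 := by
  have h := hr 1 Γ.one_mem 1 Γ.one_mem 1 Γ.one_mem (by rw [mul_one]; exact WA1_PEq_refl 1)
  have h2 := WA1_PEq_mul h (WA1_PEq_refl (r 1)⁻¹)
  rw [mul_inv_cancel, mul_inv_cancel_right] at h2
  exact WA1_PEq_symm h2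

theorem WA1_rep_inv {Γ : Subgroup SL(2, ℝ)} {r : SL(2, ℝ) → SL(2, ℝ)} (hr : IsPRep Γ r)
    {g h : SL(2, ℝ)} (hg : g ∈ Γ) (hh : h ∈ Γ) (H : PEq h g⁻¹) : PEq (r h) (r g)⁻¹ := by
  have h1 : PEq 1 (g * h) := by
    have := WA1_PEq_mul (WA1_PEq_refl g) H
    rw [mul_inv_cancel] at this
    exact WA1_PEq_symm this
  have h2 := hr g hg h hh 1 Γ.one_mem h1
  have h3 := WA1_PEq_trans (WA1_PEq_symm h2) (WA1_rep_one hr)
  have h4 := WA1_PEq_mul (WA1_PEq_refl (r g)⁻¹) h3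
  rw [mul_one, inv_mul_cancel_left] at h4
  exact h4

theorem WA1_rep_conj {Γ : Subgroup SL(2, ℝ)} {r : SL(2, ℝ) → SL(2, ℝ)} (hr : IsPRep Γ r)
    {g γ h : SL(2, ℝ)} (hg : g ∈ Γ) (hγ : γ ∈ Γ) (hh : h ∈ Γ) (H : PEq h (γ * g * γ⁻¹)) :
    PEq (r h) (r γ * r g * (r γ)⁻¹) := by
  have hγi : γ⁻¹ ∈ Γ := Γ.inv_mem hγ
  have h1 := hr (γ * g) (Γ.mul_mem hγ hg) γ⁻¹ hγi h hh H
  have h2 := hr γ hγ g hg (γ * g) (Γ.mul_mem hγ hg) (WA1_PEq_refl _)
  have h3 := WA1_rep_inv hr hγ hγi (WA1_PEq_refl _)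
  exact WA1_PEq_trans h1 (WA1_PEq_mul h2 h3)

theorem WA1_axis_PEq (tw1 : TW1_stmt) {g h : SL(2, ℝ)} (hh : 2 < |trc h|) (H : PEq g h) :
    axis g = axis h := by
  rcases H with H | H
  · rw [H]
  · rw [H]; exact (tw1.2.2.1 h 0 0 hh).2.2.2.1

theorem WA1 (gm1 : GM1_stmt) (gm2 : GM2_stmt) (tw1 : TW1_stmt) (fb1 : FB1_stmt)
    (wa0 : WA0_stmt) : WA1_stmt := by
  intro Γ hΓ S r hadm
  obtain ⟨f1, f2, f3, f4, f5⟩ := fb1 Γ hΓ S r hadm
  obtain ⟨hrep, htr, _⟩ := hadm.1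
  have hgen : ∀ p ∈ S.L, gen Γ p ∈ Γ := fun p hp => (gm1 Γ hΓ p (S.closed p hp)).1
  have hga : ∀ p ∈ S.L, ∀ γ ∈ Γ, aV Γ r (ga γ p) = cj (r γ) (aV Γ r p) := by
    intro p hp γ hγ
    have h1 := (gm2 Γ hΓ).2.1 p (S.closed p hp) γ hγ
    have h2 := WA1_rep_conj hrep (hgen p hp) hγ (hgen _ (S.inv γ hγ p hp)) h1
    have h3 := tw1.2.1 (r (gen Γ p)) (r γ) 0 (htr p hp)
    have h5 : 2 < |trc (r (gen Γ (ga γ p)))| := htr _ (S.inv γ hγ p hp)
    have h4 : 2 < |trc (r γ * r (gen Γ p) * (r γ)⁻¹)| := by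
      rcases h2 with h2 | h2
      · rw [← h2]; exact h5
      · have h6 : |trc (-(r γ * r (gen Γ p) * (r γ)⁻¹))| =
            |trc (r γ * r (gen Γ p) * (r γ)⁻¹)| := by
          rw [← abs_neg]
          congr 1
          simp [trc]
          ring
        rw [← h6, ← h2]
        exact h5
    unfold aV
    rw [WA1_axis_PEq tw1 h4 h2, h3.2]
    rfl
  refine ⟨?_, ?_⟩
  · intro p hp
    obtain ⟨_, t1, t2, _, _⟩ := tw1.2.2.2 (r (gen Γ p)) (htr p hp)
    obtain ⟨l1, l2, l3⟩ := f5 p hp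
    refine ⟨t1, WA1_sq _ t1 t2, ?_, l1, l2, fun γ hγ => ⟨hga p hp γ hγ, l3 γ hγ⟩⟩
    have h1 := (gm2 Γ hΓ).2.2 p (S.closed p hp)
    have h2 := WA1_rep_inv hrep (hgen p hp) (hgen _ (S.swap p hp)) h1
    have h5 : 2 < |trc (r (gen Γ (sw p)))| := htr _ (S.swap p hp)
    have h4 : 2 < |trc ((r (gen Γ p))⁻¹)| := by
      rcases h2 with h2 | h2
      · rw [← h2]; exact h5
      · have h6 : |trc (-(r (gen Γ p))⁻¹)| = |trc ((r (gen Γ p))⁻¹)| := by
          rw [← abs_neg]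
          congr 1
          simp [trc]
          ring
        rw [← h6, ← h2]
        exact h5
    unfold aV
    rw [WA1_axis_PEq tw1 h4 h2]
    exact (tw1.2.2.1 (r (gen Γ p)) 0 0 (htr p hp)).2.1
  · intro p q x hex
    have hp : p ∈ S.L := hex.1.1
    have hq : q ∈ S.L := hex.1.2.1
    have hx : x ∈ S.L := hex.2.1.2.1
    obtain ⟨F, hF⟩ := f1 p q ⟨x, Or.inl hex⟩
    obtain ⟨g1, g2, g3⟩ := f4 p q x F hex hF
    obtain ⟨c1, c2, c3, c4, c5, c6⟩ := WA1_core tw1 _ _ F _ (htr p hp) (htr q hq) g1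
    have hd := g1.1
    obtain ⟨d', hd', hd1, hd2⟩ := g3
    obtain ⟨b1, _, _, _, b5, _⟩ := WA1_core tw1 _ _ _ d' (htr p hp) (htr x hx) ⟨hd', hd1, hd2⟩
    have hA : aV Γ r p = cj F hM := c1
    have hs : sV Γ r p q = cj F eM := c5
    have hAA : cj F hM * cj F hM = (1 : M2) := by rw [← WA1_cj_mul, WA1_hh, WA1_cj_one]
    have hss : cj F eM * cj F eM = (1 : M2) := by rw [← WA1_cj_mul, WA1_ee, WA1_cj_one]
    have has : cj F hM * cj F eM = -(cj F eM * cj F hM) := by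
      rw [← WA1_cj_mul, ← WA1_cj_mul, WA1_he]
      have := WA1_cj_smul F (-1) (eM * hM)
      simpa using this
    obtain ⟨r1, r2, r3, r4, r5⟩ := WA1_alg _ _ hAA hss has
    have hpx : sV Γ r p x = Real.cosh (xL Γ r p / 2) • cj F eM +
        Real.sinh (xL Γ r p / 2) • (cj F hM * cj F eM) := by
      have h1 : sV Γ r p x = cj (F * Dm (len (r (gen Γ p)) / 2)) eM := b5
      rw [h1, WA1_cj_cj]
      have h2 : cj (Dm (len (r (gen Γ p)) / 2)) eM = Real.cosh (len (r (gen Γ p)) / 2) • eM +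
          Real.sinh (len (r (gen Γ p)) / 2) • (hM * eM) := by
        rw [← WA1_Dmeh]
        unfold cj
        rw [WA1_Dm_inv]
      rw [h2, WA1_cj_add, WA1_cj_smul, WA1_cj_smul, WA1_cj_mul]
      rfl
    have hq2 : aV Γ r q = -(Real.cosh (sd (xL Γ r p) (xL Γ r q) (xL Γ r x)) • cj F hM) +
        Real.sinh (sd (xL Γ r p) (xL Γ r q) (xL Γ r x)) • (cj F hM * cj F eM) := c2
    refine ⟨c3, hd, ?_, ?_, ?_, ?_, ?_, ?_, ?_, ?_, ?_, ?_⟩
    · rw [hs, WA1_cj_trace, WA1_tr_e]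
    · rw [hs, hss]
    · rw [hs]; exact c6
    · rw [hA, hs, has]
    · rw [hq2, hs]
      rw [add_mul, mul_add, neg_mul, mul_neg, smul_mul_assoc, smul_mul_assoc, mul_smul_comm,
        mul_smul_comm, r3, r4, r5, smul_neg, smul_neg]
      abel
    · rw [hq2, hA, hs]
    · rw [hpx, hA, hs]
    · rw [hpx, hs, add_mul, smul_mul_assoc, smul_mul_assoc, hss, r3]
      rw [g1.2.1, WA1_cj_Dm]
      rfl
    · intro γ hγ
      unfold sV
      rw [hga p hp γ hγ, hga q hq γ hγ]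
      exact wa0.2.2.2.2.2.2.2.1 (r γ) _ _
    · intro F' hF'
      obtain ⟨d'', hd''⟩ := hF'
      obtain ⟨a1, _, _, _, a5, _⟩ := WA1_core tw1 _ _ F' d'' (htr p hp) (htr q hq) hd''
      exact ⟨a1, a5⟩

end

end AdSBend
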