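import Pool.Agent.helper73.AD.GW1

/-!
Module WA3: translation invariance and mirror antisymmetry of the contribution of a hexagon.
-/

open scoped MatrixGroups LinearAlgebra.Projectivization BigOperators
open Matrix UpperHalfPlane

namespace AdSBend

noncomputable section

open LeafSystem

/-- the reflection -/
def WA3_sig (s Y : M2) : M2 := -(s * Y * s)

theorem WA3_ip_add (X Y Z : M2) : ip (X + Y) Z = ip X Z + ip Y Z := by
  unfold ip
  rw [add_mul, Matrix.trace_add]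
  ring

theorem WA3_ip_add_right (X Y Z : M2) : ip X (Y + Z) = ip X Y + ip X Z := by
  unfold ip
  rw [mul_add, Matrix.trace_add]
  ring

theorem WA3_ip_smul (t : ℝ) (X Z : M2) : ip (t • X) Z = t * ip X Z := by
  unfold ip
  rw [smul_mul_assoc, Matrix.trace_smul, smul_eq_mul]
  ring

theorem WA3_ip_smul_right (t : ℝ) (X Z : M2) : ip X (t • Z) = t * ip X Z := by
  unfold ip
  rw [mul_smul_comm, Matrix.trace_smul, smul_eq_mul]
  ring

theorem WA3_ip_neg (X Z : M2) : ip (-X) Z = -ip X Z := by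
  unfold ip
  rw [neg_mul, Matrix.trace_neg]
  ring

theorem WA3_ip_zero (X : M2) : ip X 0 = 0 := by
  unfold ip
  simp

theorem WA3_ip_sig (s Y Z : M2) (hs : s * s = 1) :
    ip (WA3_sig s Y) (WA3_sig s Z) = ip Y Z := by
  unfold ip WA3_sig
  congr 1
  have : -(s * Y * s) * -(s * Z * s) = s * (Y * Z * s) := by
    rw [neg_mul_neg]
    calc s * Y * s * (s * Z * s) = s * Y * (s * s) * Z * s := by simp only [mul_assoc]
      _ = s * (Y * Z * s) := by rw [hs]; simp only [mul_assoc, mul_one]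
  rw [this, Matrix.trace_mul_comm, mul_assoc, hs, mul_one]

theorem WA3_term (s Y₁ Y₂ Z : M2) (hs : s * s = 1) :
    ip ((1 / 2 : ℝ) • (-WA3_sig s Y₁ + -WA3_sig s Y₂)) (WA3_sig s Z) =
      -ip ((1 / 2 : ℝ) • (Y₁ + Y₂)) Z := by
  rw [WA3_ip_smul, WA3_ip_smul, WA3_ip_add, WA3_ip_add, WA3_ip_neg, WA3_ip_neg,
    WA3_ip_sig s _ _ hs, WA3_ip_sig s _ _ hs]
  ring

theorem WA3_sig_add (s Y Z : M2) : WA3_sig s (Y + Z) = WA3_sig s Y + WA3_sig s Z := by
  unfold WA3_sig
  rw [mul_add, add_mul]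
  abel

theorem WA3_sig_smul (s : M2) (t : ℝ) (Y : M2) : WA3_sig s (t • Y) = t • WA3_sig s Y := by
  unfold WA3_sig
  rw [mul_smul_comm, smul_mul_assoc, smul_neg]

theorem WA3_sig_neg (s Y : M2) : WA3_sig s (-Y) = -WA3_sig s Y := by
  unfold WA3_sig
  rw [mul_neg, neg_mul]

/-- the reflection fixes the vectors anticommuting with `s` -/
theorem WA3_sig_fix (s a : M2) (hs : s * s = 1) (h : a * s = -(s * a)) : WA3_sig s a = a := by
  unfold WA3_sig
  rw [← neg_mul, ← h, mul_assoc, hs, mul_one]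

/-- seam vectors of reflected vectors -/
theorem WA3_smV (s a x : M2) (hs : s * s = 1) :
    smV (WA3_sig s a) (WA3_sig s x) = -WA3_sig s (smV a x) := by
  unfold smV
  rw [WA3_ip_sig s _ _ hs, WA3_sig_smul, ← smul_neg]
  congr 1
  unfold WA3_sig
  have h1 : -(s * a * s) * -(s * x * s) = s * (a * x) * s := by
    rw [neg_mul_neg]
    calc s * a * s * (s * x * s) = s * a * (s * s) * x * s := by simp only [mul_assoc]
      _ = s * (a * x) * s := by rw [hs]; simp only [mul_assoc, mul_one]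
  rw [h1, neg_neg, mul_sub, sub_mul, mul_smul_comm, mul_one, smul_mul_assoc, hs]

theorem WA3_cj_pos (wa0 : WA0_stmt) (g : SL(2, ℝ)) (X : M2) : cj (pos g) X = cj g X := by
  unfold pos
  split_ifs
  · rfl
  · exact wa0.2.2.1 g X

theorem WA3_cj_of (g : SL(2, ℝ)) (s t X : M2) (hs : s * s = 1) (ht : t * t = 1)
    (h : g.1 = s * t) : cj g X = s * t * X * (t * s) := by
  have h1 : (g⁻¹).1 * g.1 = 1 := by
    rw [← Matrix.SpecialLinearGroup.coe_mul, inv_mul_cancel]
    rfl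
  have h2 : g.1 * (t * s) = 1 := by
    rw [h]
    calc s * t * (t * s) = s * (t * t) * s := by simp only [mul_assoc]
      _ = 1 := by rw [ht, mul_one, hs]
  have h3 : (g⁻¹).1 = t * s := by
    calc (g⁻¹).1 = (g⁻¹).1 * (g.1 * (t * s)) := by rw [h2, mul_one]
      _ = ((g⁻¹).1 * g.1) * (t * s) := by rw [mul_assoc]
      _ = t * s := by rw [h1, one_mul]
  unfold cj
  rw [h3, h]

theorem WA3 (gm1 : GM1_stmt) (hx1 : HX1_stmt) (wa0 : WA0_stmt) (wa1 : WA1_stmt)
    (wa2 : WA2_stmt) (wa4 : WA4_stmt) : WA3_stmt := by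
  intro Γ hΓ S r hadm nu xd x' hxd hx' hrot hseam
  obtain ⟨w1, w2⟩ := wa1 Γ hΓ S r hadm
  obtain ⟨x1, x2, _⟩ := hx1 Γ hΓ S
  -- symmetry of the seam lengths
  have hds : ∀ (y : Bd × Bd → ℝ) (p q x : Bd × Bd), ds Γ r y p q x = ds Γ r y q p x := by
    intro y p q x
    exact wa4.2.1 _ _ _ _ _ _
  -- translation invariance
  have hB : ∀ (nu : Bd × Bd → Bd × Bd → M2) (τ : Tri), S.IsHex τ → ∀ v : M2,
      hexT (Γ := Γ) r (fun p q => nu p q + v) x' τ = hexT (Γ := Γ) r nu x' τ := by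
    intro nu τ hτ v
    obtain ⟨p, q, x⟩ := τ
    have h2 := wa2 Γ hΓ S r hadm p q x hτ x'
    have h3 : ip v ((x' p / 2) • aV Γ r p + ds Γ r x' p x q • sV Γ r p x +
      (x' x / 2) • aV Γ r x + ds Γ r x' x q p • sV Γ r x q + (x' q / 2) • aV Γ r q +
        ds Γ r x' q p x • sV Γ r q p) = 0 := by
      rw [h2, WA3_ip_zero]
    simp only [WA3_ip_add_right, WA3_ip_smul_right] at h3
    simp only [hexT, sideT, rotT, WA3_ip_smul, WA3_ip_add]
    linear_combination h3
  intro τ hτ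
  refine ⟨?_, fun v => hB nu τ hτ v, ?_⟩
  swap
  · obtain ⟨p, q, x⟩ := τ
    simp only [hexT, rotT]
    ring
  obtain ⟨p, q, x⟩ := τ
  have hex1 : S.Hex p q x := hτ
  have hex2 : S.Hex q x p := x1 _ _ _ hex1
  have hex3 : S.Hex x p q := x1 _ _ _ hex2
  set g := gen Γ p with hg
  set q1 := ga g q with hq1
  have hex4 : S.Hex p x q1 := x2 _ _ _ hex1
  have hex5 : S.Hex x q1 p := x1 _ _ _ hex4
  have hex6 : S.Hex q1 p x := x1 _ _ _ hex5
  have hp : p ∈ S.L := hex1.1.1
  have hq : q ∈ S.L := hex1.1.2.1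
  have hx : x ∈ S.L := hex2.1.2.1
  have hgen := gm1 Γ hΓ p (S.closed p hp)
  have hgΓ : g ∈ Γ := hgen.1
  have hgp : ga g p = p := Prod.ext hgen.2.1.2.1 hgen.2.1.2.2.1
  -- vectors of the first hexagon
  obtain ⟨_, _, _, s2, s3, s4, s5, _, _, s8, s9, _⟩ := w2 p q x hex1
  obtain ⟨_, _, _, t2, t3, t4, t5, _, _, _, _, _⟩ := w2 q x p hex2
  obtain ⟨_, _, _, u2, u3, u4, u5, _, _, _, _, _⟩ := w2 x p q hex3
  obtain ⟨_, _, _, _, v3, _, _, _, _, _, _, _⟩ := w2 x q1 p hex5
  obtain ⟨_, _, _, _, z3, _, _, _, _, _, _, _⟩ := w2 q1 p x hex6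
  set s := sV Γ r p x with hs
  have hxp : sV Γ r x p = -s := by
    have := u3
    rw [← neg_eq_iff_eq_neg] at this
    exact this.symm
  have hss : s * s = 1 := by
    have := u2
    rw [hxp, neg_mul_neg] at this
    exact this
  have has : aV Γ r p * s = -(s * aV Γ r p) := by
    have := u5
    rw [hxp, mul_neg, neg_mul, neg_inj] at this
    exact this
  have hxs : aV Γ r x * s = -(s * aV Γ r x) := by
    have := u4
    rw [hxp, mul_neg, neg_mul, neg_inj] at this
    exact this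
  have fp : WA3_sig s (aV Γ r p) = aV Γ r p := WA3_sig_fix s _ hss has
  have fx : WA3_sig s (aV Γ r x) = aV Γ r x := WA3_sig_fix s _ hss hxs
  have fs : WA3_sig s s = -s := by
    unfold WA3_sig
    rw [hss, one_mul]
  -- the third leaf of the mirror image
  have fq : WA3_sig s (aV Γ r q) = aV Γ r q1 := by
    have h1 := ((w1 q hq).2.2.2.2.2 g hgΓ).1
    rw [hq1, h1, ← WA3_cj_pos wa0, WA3_cj_of _ s (sV Γ r p q) _ hss s2 s8]
    unfold WA3_sig
    calc -(s * aV Γ r q * s) = s * -(aV Γ r q * (sV Γ r p q * sV Γ r p q)) * s := by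
          rw [s2, mul_one, mul_neg, neg_mul]
      _ = s * -((aV Γ r q * sV Γ r p q) * sV Γ r p q) * s := by rw [mul_assoc (aV Γ r q)]
      _ = s * (sV Γ r p q * aV Γ r q * sV Γ r p q) * s := by rw [s5, neg_mul, neg_neg]
      _ = s * sV Γ r p q * aV Γ r q * (sV Γ r p q * s) := by simp only [mul_assoc]
  have gpq : sV Γ r p q1 = -WA3_sig s (sV Γ r p q) := by
    unfold sV
    rw [← WA3_smV s _ _ hss, fp, fq]
  have gxq : sV Γ r x q1 = -WA3_sig s (sV Γ r x q) := by
    unfold sV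
    rw [← WA3_smV s _ _ hss, fx, fq]
  have gqx : sV Γ r q1 x = -WA3_sig s (sV Γ r q x) := by
    unfold sV
    rw [← WA3_smV s _ _ hss, fx, fq]
  have hxq : sV Γ r x q = -sV Γ r q x := t3
  have hqp : sV Γ r q p = -sV Γ r p q := s3
  -- lengths
  have lq : xL Γ r q1 = xL Γ r q := ((w1 q hq).2.2.2.2.2 g hgΓ).2
  have xq : x' q1 = x' q := hx' g hgΓ q hq
  have dq : xd q1 = xd q := hxd g hgΓ q hq
  have ds1 : ∀ y : Bd × Bd → ℝ, y q1 = y q → ds Γ r y p q1 x = ds Γ r y q p x := by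
    intro y hy
    rw [hds]
    unfold ds
    rw [lq, hy]
  have ds2 : ∀ y : Bd × Bd → ℝ, y q1 = y q → ds Γ r y x p q1 = ds Γ r y p x q := by
    intro y hy
    rw [hds]
    unfold ds
    rw [lq, hy]
  have ds3 : ∀ y : Bd × Bd → ℝ, y q1 = y q → ds Γ r y q1 x p = ds Γ r y x q p := by
    intro y hy
    rw [hds y x q p]
    unfold ds
    rw [lq, hy]
  -- the centre of the seam
  set v : M2 := -((1 / 2 : ℝ) • (nu p x + nu x p)) with hv
  set n : Bd × Bd → Bd × Bd → M2 := fun a b => nu a b + v with hn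
  have hmir : S.IsHex (mir Γ (p, q, x)) := hex5
  rw [← hB nu (mir Γ (p, q, x)) hmir v, ← hB nu (p, q, x) hτ v]
  change hexT (Γ := Γ) r n x' (mir Γ (p, q, x)) = -hexT (Γ := Γ) r n x' (p, q, x)
  have nrot : ∀ a b c, S.Hex a b c → n a c - n a b = (xd a / 2) • aV Γ r a := by
    intro a b c h
    rw [← hrot a b c h]
    simp only [hn]
    abel
  have nseam : ∀ a b c, S.Hex a b c → n b a - n a b = ds Γ r xd a b c • sV Γ r a b := by
    intro a b c h
    rw [← hseam a b c h]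
    simp only [hn]
    abel
  have n0 : n p x + n x p = 0 := by
    simp only [hn, hv]
    have : nu p x + -((1 / 2 : ℝ) • (nu p x + nu x p)) + (nu x p +
        -((1 / 2 : ℝ) • (nu p x + nu x p))) = (nu p x + nu x p) -
        ((1 / 2 : ℝ) • (nu p x + nu x p) + (1 / 2 : ℝ) • (nu p x + nu x p)) := by abel
    rw [this, ← add_smul]
    norm_num
  -- the vertex values
  set E2 := ds Γ r xd x p q with hE2
  have e1 : n x p = (E2 / 2) • s := by
    have h1 := nseam x p q hex3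
    rw [hxp] at h1
    have h2 : n p x = -n x p := eq_neg_of_add_eq_zero_left n0
    rw [h2] at h1
    have h3 : (2 : ℝ) • n x p = E2 • s := by
      have : (2 : ℝ) • n x p = -(-n x p - n x p) := by rw [two_smul]; abel
      rw [this, h1, smul_neg, neg_neg]
    calc n x p = (1 / 2 : ℝ) • ((2 : ℝ) • n x p) := by rw [smul_smul]; norm_num
      _ = (1 / 2 : ℝ) • (E2 • s) := by rw [h3]
      _ = (E2 / 2) • s := by rw [smul_smul]; congr 1; ring
  have e2 : n p x = -n x p := eq_neg_of_add_eq_zero_left n0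
  have r1 : n x p = -WA3_sig s (n x p) := by
    rw [e1, WA3_sig_smul, fs, smul_neg, neg_neg]
  have r2 : n p x = -WA3_sig s (n p x) := by
    rw [e2, WA3_sig_neg, ← r1]
  have r3 : n p q1 = -WA3_sig s (n p q) := by
    have h1 := nrot p x q1 hex4
    have h2 := nrot p q x hex1
    have h3 : n p q = n p x - (xd p / 2) • aV Γ r p := by rw [← h2]; abel
    have h4 : n p q1 = n p x + (xd p / 2) • aV Γ r p := by rw [← h1]; abel
    rw [h3, h4, sub_eq_add_neg, WA3_sig_add, WA3_sig_neg, WA3_sig_smul, fp, neg_add, ← r2,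
      neg_neg]
  have r4 : n x q1 = -WA3_sig s (n x q) := by
    have h1 := nrot x q1 p hex5
    have h2 := nrot x p q hex3
    have h3 : n x q = n x p + (xd x / 2) • aV Γ r x := by rw [← h2]; abel
    have h4 : n x q1 = n x p - (xd x / 2) • aV Γ r x := by rw [← h1]; abel
    rw [h3, h4, WA3_sig_add, WA3_sig_smul, fx, neg_add, ← r1, sub_eq_add_neg]
  have r5 : n q1 x = -WA3_sig s (n q x) := by
    have h1 := nseam x q1 p hex5
    have h2 := nseam q x p hex2
    have h3 : n q x = n x q - ds Γ r xd q x p • sV Γ r q x := by rw [← h2]; abel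
    have h4 : n q1 x = n x q1 + ds Γ r xd x q1 p • sV Γ r x q1 := by rw [← h1]; abel
    have h5 : ds Γ r xd x q1 p = ds Γ r xd q x p := by
      rw [hds xd x q1 p, ds3 xd dq, hds]
    rw [h3, h4, h5, gxq, hxq, sub_eq_add_neg, WA3_sig_add, WA3_sig_neg, WA3_sig_neg,
      WA3_sig_smul, r4, neg_add, neg_neg, neg_neg]
  have r6 : n q1 p = -WA3_sig s (n q p) := by
    have h1 := nrot q1 p x hex6
    have h2 := nrot q x p hex2
    have h3 : n q p = n q x + (xd q / 2) • aV Γ r q := by rw [← h2]; abel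
    have h4 : n q1 p = n q1 x - (xd q1 / 2) • aV Γ r q1 := by rw [← h1]; abel
    rw [h3, h4, dq, WA3_sig_add, WA3_sig_smul, fq, neg_add, ← r5, sub_eq_add_neg]
  have k1 : sV Γ r p q1 = WA3_sig s (sV Γ r q p) := by
    rw [gpq, hqp, WA3_sig_neg]
  have k2 : sV Γ r q1 x = WA3_sig s (sV Γ r x q) := by
    rw [gqx, hxq, WA3_sig_neg]
  have k3 : sV Γ r x p = WA3_sig s s := by rw [hxp, fs]
  -- the six terms
  have T1 : ip ((1 / 2 : ℝ) • (n x q1 + n x p)) (aV Γ r x) =
      -ip ((1 / 2 : ℝ) • (n x q + n x p)) (aV Γ r x) := by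
    have h := WA3_term s (n x q) (n x p) (aV Γ r x) hss
    rw [← r4, ← r1, fx] at h
    exact h
  have T2 : ip ((1 / 2 : ℝ) • (n x p + n p x)) (sV Γ r x p) =
      -ip ((1 / 2 : ℝ) • (n x p + n p x)) s := by
    have h := WA3_term s (n x p) (n p x) s hss
    rw [← r1, ← r2, ← k3] at h
    exact h
  have T3 : ip ((1 / 2 : ℝ) • (n p x + n p q1)) (aV Γ r p) =
      -ip ((1 / 2 : ℝ) • (n p x + n p q)) (aV Γ r p) := by
    have h := WA3_term s (n p x) (n p q) (aV Γ r p) hss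
    rw [← r3, ← r2, fp] at h
    exact h
  have T4 : ip ((1 / 2 : ℝ) • (n p q1 + n q1 p)) (sV Γ r p q1) =
      -ip ((1 / 2 : ℝ) • (n p q + n q p)) (sV Γ r q p) := by
    have h := WA3_term s (n p q) (n q p) (sV Γ r q p) hss
    rw [← r3, ← r6, ← k1] at h
    exact h
  have T5 : ip ((1 / 2 : ℝ) • (n q1 p + n q1 x)) (aV Γ r q1) =
      -ip ((1 / 2 : ℝ) • (n q p + n q x)) (aV Γ r q) := by
    have h := WA3_term s (n q p) (n q x) (aV Γ r q) hss
    rw [← r6, ← r5, fq] at h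
    exact h
  have T6 : ip ((1 / 2 : ℝ) • (n q1 x + n x q1)) (sV Γ r q1 x) =
      -ip ((1 / 2 : ℝ) • (n q x + n x q)) (sV Γ r x q) := by
    have h := WA3_term s (n q x) (n x q) (sV Γ r x q) hss
    rw [← r5, ← r4, ← k2] at h
    exact h
  have hmirE : mir Γ (p, q, x) = (x, q1, p) := rfl
  rw [hmirE]
  simp only [hexT, sideT, rotT]
  rw [T1, T2, T3, T4, T5, T6, ds1 x' xq, ds2 x' xq, ds3 x' xq, xq]
  rw [add_comm (n x q) (n x p), add_comm (n x p) (n p x), add_comm (n p x) (n p q),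
    add_comm (n p q) (n q p), add_comm (n q p) (n q x), add_comm (n q x) (n x q)]
  ring

end

end AdSBend
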